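import Mathlib

/-!
# Golomb rulers: greedy choice and union lemmas (MP_61bf50_co)
-/

set_option autoImplicit false

namespace Pool.Agent.GRX

/-- A finite set of integers whose differences (of two different elements) are all distinct. -/
def Golomb (A : Finset ℤ) : Prop :=
  ∀ a ∈ A, ∀ b ∈ A, ∀ c ∈ A, ∀ d ∈ A, a ≠ b → a - b = c - d → a = c ∧ b = d

theorem Golomb.mono {A B : Finset ℤ} (hB : Golomb B) (h : A ⊆ B) : Golomb A :=
  fun a ha b hb c hc d hd => hB a (h ha) b (h hb) c (h hc) d (h hd)

theorem golomb_empty : Golomb ∅ := by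
  intro a ha
  exact absurd ha (Finset.notMem_empty a)

theorem golomb_le_one {A : Finset ℤ} (h : A.card ≤ 1) : Golomb A := by
  intro a ha b hb c hc d hd hab
  exact absurd (Finset.card_le_one.1 h a ha b hb) hab

/-- one more element -/
theorem extend {X W : Finset ℤ} (hX : Golomb X) (h : X.card ^ 3 + X.card ^ 2 < W.card) :
    ∃ x ∈ W, x ∉ X ∧ Golomb (insert x X) := by
  classical
  obtain ⟨bad, hbad⟩ : ∃ bad : Finset ℤ, bad =
    ((X ×ˢ X ×ˢ X).image fun q => q.1 + q.2.1 - q.2.2) ∪
      ((X ×ˢ X).image fun q => (q.1 + q.2) / 2) := ⟨_, rfl⟩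
  have hcard : bad.card ≤ X.card ^ 3 + X.card ^ 2 := by
    rw [hbad]
    refine (Finset.card_union_le _ _).trans (add_le_add ?_ ?_)
    · refine Finset.card_image_le.trans ?_
      rw [Finset.card_product, Finset.card_product]
      apply le_of_eq
      ring
    · refine Finset.card_image_le.trans ?_
      rw [Finset.card_product]
      apply le_of_eq
      ring
  have hlt : bad.card < W.card := lt_of_le_of_lt hcard h
  obtain ⟨x, hxW, hx⟩ := Finset.exists_mem_notMem_of_card_lt_card hlt
  have h1 : ∀ a ∈ X, ∀ b ∈ X, ∀ c ∈ X, x ≠ a + b - c := by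
    intro a ha b hb c hc he
    apply hx
    rw [hbad, Finset.mem_union]
    left
    rw [Finset.mem_image]
    exact ⟨(a, b, c), by simp [ha, hb, hc], he.symm⟩
  have h2 : ∀ a ∈ X, ∀ b ∈ X, 2 * x ≠ a + b := by
    intro a ha b hb he
    apply hx
    rw [hbad, Finset.mem_union]
    right
    rw [Finset.mem_image]
    refine ⟨(a, b), by simp [ha, hb], ?_⟩
    simp only
    omega
  have hxX : x ∉ X := fun hm => h1 x hm x hm x hm (by ring)
  refine ⟨x, hxW, hxX, ?_⟩
  intro a ha b hb c hc d hd hab he
  rw [Finset.mem_insert] at ha hb hc hd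
  rcases ha with ha | ha <;> rcases hb with hb | hb <;> rcases hc with hc | hc <;>
    rcases hd with hd | hd
  · exact absurd (ha.trans hb.symm) hab
  · exact absurd (ha.trans hb.symm) hab
  · exact absurd (ha.trans hb.symm) hab
  · exact absurd (ha.trans hb.symm) hab
  · exfalso
    apply hab
    rw [hc, hd, sub_self] at he
    exact sub_eq_zero.1 he
  · constructor
    · rw [ha, hc]
    · omega
  · exact absurd (by omega : 2 * x = b + c) (h2 b hb c hc)
  · exact absurd (by omega : x = b + c - d) (h1 b hb c hc d hd)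
  · exfalso
    apply hab
    rw [hc, hd, sub_self] at he
    exact sub_eq_zero.1 he
  · exact absurd (by omega : 2 * x = a + d) (h2 a ha d hd)
  · constructor
    · omega
    · rw [hb, hd]
  · exact absurd (by omega : x = a + d - c) (h1 a ha d hd c hc)
  · exfalso
    apply hab
    rw [hc, hd, sub_self] at he
    exact sub_eq_zero.1 he
  · exact absurd (by omega : x = a + d - b) (h1 a ha d hd b hb)
  · exact absurd (by omega : x = b + c - a) (h1 b hb c hc a ha)
  · exact hX a ha b hb c hc d hd hab he

/-- a Golomb subset of prescribed size -/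
theorem greedy_one (t : ℕ) (W : Finset ℤ) (h : (t - 1) ^ 2 * t + 1 ≤ W.card) :
    ∃ T ⊆ W, T.card = t ∧ Golomb T := by
  classical
  have key : ∀ s : ℕ, s ≤ t → ∃ T ⊆ W, T.card = s ∧ Golomb T := by
    intro s
    induction s with
    | zero =>
      intro _
      exact ⟨∅, Finset.empty_subset _, rfl, golomb_empty⟩
    | succ s ih =>
      intro hs
      obtain ⟨T, hTW, hTc, hT⟩ := ih (by omega)
      have hb : T.card ^ 3 + T.card ^ 2 < W.card := by
        rw [hTc]
        have h1 : s ≤ t - 1 := by omega
        have h2 : s ^ 2 ≤ (t - 1) ^ 2 := Nat.pow_le_pow_left h1 2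
        have h3 : s ^ 3 + s ^ 2 = s ^ 2 * (s + 1) := by ring
        have h4 : s ^ 2 * (s + 1) ≤ (t - 1) ^ 2 * t := Nat.mul_le_mul h2 hs
        omega
      obtain ⟨x, hxW, hxT, hxG⟩ := extend hT hb
      refine ⟨insert x T, Finset.insert_subset hxW hTW, ?_, hxG⟩
      rw [Finset.card_insert_of_notMem hxT, hTc]
  exact key t le_rfl

/-- disjoint Golomb subsets of prescribed sizes -/
theorem greedy_fam {ι : Type} [DecidableEq ι] (S : Finset ι) (t : ι → ℕ) (B : ℕ)
    (W : Finset ℤ) (ht : ∀ i ∈ S, (t i - 1) ^ 2 * t i + 1 ≤ B)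
    (hW : B + ∑ i ∈ S, t i ≤ W.card) :
    ∃ T : ι → Finset ℤ, (∀ i ∈ S, T i ⊆ W ∧ (T i).card = t i ∧ Golomb (T i)) ∧
      (∀ i, i ∉ S → T i = ∅) ∧ ∀ i j, i ≠ j → Disjoint (T i) (T j) := by
  classical
  induction S using Finset.induction_on with
  | empty =>
    exact ⟨fun _ => ∅, by simp, fun _ _ => rfl, fun _ _ _ => Finset.disjoint_empty_left _⟩
  | insert k S hk ih =>
    rw [Finset.sum_insert hk] at hW
    obtain ⟨T, h1, h2, h3⟩ := ih (fun i hi => ht i (Finset.mem_insert_of_mem hi)) (by omega)
    have hU : (S.biUnion T).card ≤ ∑ i ∈ S, t i := by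
      refine Finset.card_biUnion_le.trans (Finset.sum_le_sum fun i hi => ?_)
      rw [(h1 i hi).2.1]
    have hW' : B ≤ (W \ S.biUnion T).card := by
      have := Finset.le_card_sdiff (S.biUnion T) W
      omega
    obtain ⟨T', hT1, hT2, hT3⟩ := greedy_one (t k) (W \ S.biUnion T)
      ((ht k (Finset.mem_insert_self _ _)).trans hW')
    have hd : ∀ i, i ≠ k → Disjoint (T i) T' := by
      intro i _
      by_cases hi : i ∈ S
      · rw [Finset.disjoint_left]
        intro x hx hx'
        have := hT1 hx'
        rw [Finset.mem_sdiff] at this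
        exact this.2 (Finset.mem_biUnion.2 ⟨i, hi, hx⟩)
      · rw [h2 i hi]
        exact Finset.disjoint_empty_left _
    refine ⟨fun i => if i = k then T' else T i, ?_, ?_, ?_⟩
    · intro i hi
      by_cases hik : i = k
      · simp only [hik, if_true]
        exact ⟨hT1.trans Finset.sdiff_subset, hT2, hT3⟩
      · simp only [hik, if_false]
        exact h1 i ((Finset.mem_insert.1 hi).resolve_left hik)
    · intro i hi
      rw [Finset.mem_insert, not_or] at hi
      simp only [hi.1, if_false]
      exact h2 i hi.2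
    · intro i j hij
      by_cases hi : i = k
      · have hj : j ≠ k := fun h => hij (hi.trans h.symm)
        simp only [hi, hj, if_true, if_false]
        exact (hd j hj).symm
      · by_cases hj : j = k
        · simp only [hi, hj, if_true, if_false]
          exact hd i hi
        · simp only [hi, hj, if_false]
          exact h3 i j hij

/-- adding a short far away Golomb ruler -/
theorem union_gol {R T : Finset ℤ} {δ σ : ℤ} (hσ : σ = 1 ∨ σ = -1) (hR : Golomb R)
    (hT : Golomb T) (gap : ∀ x ∈ R, ∀ y ∈ R, x ≠ y → δ ≤ |x - y|)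
    (dT : ∀ x ∈ T, ∀ y ∈ T, |x - y| < δ)
    (far : ∀ x ∈ R, ∀ y ∈ R, ∀ z ∈ R, ∀ e ∈ T, x - y < σ * (e - z))
    (far2 : ∀ z ∈ R, ∀ e ∈ T, δ ≤ σ * (e - z)) : Golomb (R ∪ T) := by
  intro a ha b hb c hc d hd hab he
  rw [Finset.mem_union] at ha hb hc hd
  have hpos : ∀ z ∈ R, ∀ e ∈ T, 0 < σ * (e - z) := fun z hz e he' => by
    have := far z hz z hz z hz e he'
    rwa [sub_self] at this
  rcases ha with ha | ha <;> rcases hb with hb | hb <;> rcases hc with hc | hc <;>
    rcases hd with hd | hd
  · exact hR a ha b hb c hc d hd hab he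
  · exfalso
    have h1 := far a ha b hb c hc d hd
    have h2 := far b hb a ha c hc d hd
    rcases hσ with h | h <;> rw [h] at h1 h2 <;> omega
  · exfalso
    have h1 := far a ha b hb d hd c hc
    have h2 := far b hb a ha d hd c hc
    rcases hσ with h | h <;> rw [h] at h1 h2 <;> omega
  · exfalso
    have h1 := gap a ha b hb hab
    have h2 := dT c hc d hd
    rw [he] at h1
    omega
  · exfalso
    have h1 := far a ha c hc a ha b hb
    have h2 := far c hc a ha a ha b hb
    have h3 := far c hc d hd a ha b hb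
    have h4 := far d hd c hc a ha b hb
    rcases hσ with h | h <;> rw [h] at h1 h2 h3 h4 <;> omega
  · by_cases hac : a = c
    · exact ⟨hac, by omega⟩
    · exfalso
      have h1 := gap a ha c hc hac
      have h2 := dT b hb d hd
      have : a - c = b - d := by omega
      rw [this] at h1
      omega
  · exfalso
    have h1 := hpos a ha b hb
    have h2 := hpos d hd c hc
    rcases hσ with h | h <;> rw [h] at h1 h2 <;> omega
  · exfalso
    have h1 := far2 a ha b hb
    have h2 := dT c hc d hd
    rw [abs_lt] at h2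
    rcases hσ with h | h <;> rw [h] at h1 <;> omega
  · exfalso
    have h1 := far c hc d hd b hb a ha
    have h2 := far d hd c hc b hb a ha
    rcases hσ with h | h <;> rw [h] at h1 h2 <;> omega
  · exfalso
    have h1 := hpos b hb a ha
    have h2 := hpos c hc d hd
    rcases hσ with h | h <;> rw [h] at h1 h2 <;> omega
  · by_cases hbd : b = d
    · exact ⟨by omega, hbd⟩
    · exfalso
      have h1 := gap b hb d hd hbd
      have h2 := dT a ha c hc
      have : b - d = a - c := by omega
      rw [this] at h1
      omega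
  · exfalso
    have h1 := far2 b hb a ha
    have h2 := dT c hc d hd
    rw [abs_lt] at h2
    rcases hσ with h | h <;> rw [h] at h1 <;> omega
  · exfalso
    have h1 := dT a ha b hb
    have hcd : c ≠ d := by
      intro h
      apply hab
      omega
    have h2 := gap c hc d hd hcd
    rw [he] at h1
    omega
  · exfalso
    have h1 := far2 c hc d hd
    have h2 := dT a ha b hb
    rw [abs_lt] at h2
    rcases hσ with h | h <;> rw [h] at h1 <;> omega
  · exfalso
    have h1 := far2 d hd c hc
    have h2 := dT a ha b hb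
    rw [abs_lt] at h2
    rcases hσ with h | h <;> rw [h] at h1 <;> omega
  · exact hT a ha b hb c hc d hd hab he

end Pool.Agent.GRX
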