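import Pool.Agent.GRX.Basic

/-!
# Golomb rulers: the exchange theorem (MP_61bf50_co)
-/

set_option autoImplicit false

namespace Pool.Agent.GRX

variable {ι : Type} [Fintype ι] [DecidableEq ι]

/-- A system of disjoint rulers in two groups (left, right), a set `E` of `J` further points far
to the left and two short zones. -/
structure Sys (J : ℕ) (R : ι → Finset ℤ) (left : ι → Prop) (E ZL ZR : Finset ℤ) (δ : ℤ) :
    Prop where
  pos : 0 < δ
  cR : ∀ i, (R i).card = J
  cE : E.card = J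
  gol : ∀ i, Golomb (R i)
  dis : ∀ i j, i ≠ j → Disjoint (R i) (R j)
  disE : ∀ i, Disjoint (R i) E
  gap : ∀ i, ∀ x ∈ R i, ∀ y ∈ R i, x ≠ y → δ ≤ |x - y|
  zL : ∀ x ∈ ZL, ∃ i, left i ∧ x ∈ R i
  zR : ∀ x ∈ ZR, ∃ i, ¬ left i ∧ x ∈ R i
  dL : ∀ x ∈ ZL, ∀ y ∈ ZL, |x - y| < δ
  dR : ∀ x ∈ ZR, ∀ y ∈ ZR, |x - y| < δ
  cL : 4 * J + 3 ≤ ZL.card
  cZ : 4 * J + 3 ≤ ZR.card
  farR : ∀ i, ¬ left i → ∀ x ∈ R i, ∀ y ∈ R i, ∀ z ∈ R i, ∀ e ∈ ZL ∪ E,
    x - y < z - e ∧ δ ≤ z - e
  farL : ∀ i, left i → ∀ x ∈ R i, ∀ y ∈ R i, ∀ z ∈ R i, ∀ e ∈ ZR,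
    x - y < e - z ∧ δ ≤ e - z

/-- the points of `Z` in undamaged rulers -/
def good (R : ι → Finset ℤ) (A Z : Finset ℤ) : Finset ℤ :=
  open Classical in Z.filter fun x => ∀ i, x ∈ R i → Disjoint (R i) A

omit [DecidableEq ι] in
theorem mem_good {R : ι → Finset ℤ} {A Z : Finset ℤ} {x : ℤ} :
    x ∈ good R A Z ↔ x ∈ Z ∧ ∀ i, x ∈ R i → Disjoint (R i) A := by
  unfold good
  rw [Finset.mem_filter]

theorem card_good {R : ι → Finset ℤ} {A Z : Finset ℤ} {δ : ℤ}
    (dis : ∀ i j, i ≠ j → Disjoint (R i) (R j))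
    (gap : ∀ i, ∀ x ∈ R i, ∀ y ∈ R i, x ≠ y → δ ≤ |x - y|)
    (dZ : ∀ x ∈ Z, ∀ y ∈ Z, |x - y| < δ) {N : ℕ} (h : A.card + N ≤ Z.card) :
    N ≤ (good R A Z).card := by
  classical
  have h1 : ∀ x ∈ Z \ good R A Z, ∃ a ∈ A, ∃ i, x ∈ R i ∧ a ∈ R i := by
    intro x hx
    rw [Finset.mem_sdiff, mem_good, not_and] at hx
    have h2 := hx.2 hx.1
    push Not at h2
    obtain ⟨i, hi, hd⟩ := h2
    rw [Finset.not_disjoint_iff] at hd
    obtain ⟨a, ha1, ha2⟩ := hd
    exact ⟨a, ha2, i, hi, ha1⟩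
  choose! f hf using h1
  have h3 : (Z \ good R A Z).card ≤ A.card := by
    refine Finset.card_le_card_of_injOn f (fun x hx => (hf x hx).1) ?_
    intro x hx y hy hxy
    obtain ⟨i, hi1, hi2⟩ := (hf x hx).2
    obtain ⟨j, hj1, hj2⟩ := (hf y hy).2
    rw [← hxy] at hj2
    have hij : i = j := by
      by_contra hne
      exact Finset.disjoint_left.1 (dis i j hne) hi2 hj2
    subst hij
    by_contra hne
    have h4 := gap i x hi1 y hj1 hne
    have hxZ := (Finset.mem_sdiff.1 (Finset.mem_coe.1 hx)).1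
    have hyZ := (Finset.mem_sdiff.1 (Finset.mem_coe.1 hy)).1
    have h5 := dZ x hxZ y hyZ
    omega
  have h6 : Z.card ≤ (Z \ good R A Z).card + (good R A Z).card := by
    rw [← Finset.card_union_of_disjoint Finset.sdiff_disjoint]
    refine Finset.card_le_card ?_
    rw [Finset.sdiff_union_self_eq_union]
    exact Finset.subset_union_left
  omega

omit [Fintype ι] [DecidableEq ι] in
/-- the sum of the sizes of the parts of a set -/
theorem sum_inter {R : ι → Finset ℤ} (dis : ∀ i j, i ≠ j → Disjoint (R i) (R j))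
    (S : Finset ι) (A : Finset ℤ) :
    ∑ i ∈ S, (R i ∩ A).card = (S.biUnion R ∩ A).card := by
  classical
  rw [Finset.biUnion_inter, Finset.card_biUnion]
  intro i _ j _ hij
  exact (dis i j hij).mono Finset.inter_subset_left Finset.inter_subset_left

theorem exchange {J : ℕ} {R : ι → Finset ℤ} {left : ι → Prop} {E ZL ZR : Finset ℤ} {δ : ℤ}
    (hS : Sys J R left E ZL ZR δ) (A : Finset ℤ) (hA : A.card = J)
    (hAs : A ⊆ E ∪ Finset.univ.biUnion R)
    (ht : ∀ i, ((R i ∩ A).card - 1) ^ 2 * (R i ∩ A).card + 1 ≤ 2 * J + 3) :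
    ∃ R' : ι → Finset ℤ, (∀ i, (R' i).card = J ∧ Golomb (R' i) ∧
      R' i ⊆ (E ∪ Finset.univ.biUnion R) \ A) ∧ ∀ i j, i ≠ j → Disjoint (R' i) (R' j) := by
  classical
  -- uniqueness of points of the zones in a ruler
  have uL : ∀ i, ∀ x ∈ R i, ∀ y ∈ R i, x ∈ ZL → y ∈ ZL → x = y := by
    intro i x hx y hy hxL hyL
    by_contra hne
    have := hS.gap i x hx y hy hne
    have := hS.dL x hxL y hyL
    omega
  have uR : ∀ i, ∀ x ∈ R i, ∀ y ∈ R i, x ∈ ZR → y ∈ ZR → x = y := by
    intro i x hx y hy hxL hyL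
    by_contra hne
    have := hS.gap i x hx y hy hne
    have := hS.dR x hxL y hyL
    omega
  have own : ∀ i j x, x ∈ R i → x ∈ R j → i = j := by
    intro i j x hi hj
    by_contra hne
    exact Finset.disjoint_left.1 (hS.dis i j hne) hi hj
  have leftL : ∀ i x, x ∈ R i → x ∈ ZL → left i := by
    intro i x hi hx
    obtain ⟨j, hj1, hj2⟩ := hS.zL x hx
    rw [own i j x hi hj2]
    exact hj1
  have rightR : ∀ i x, x ∈ R i → x ∈ ZR → ¬ left i := by
    intro i x hi hx
    obtain ⟨j, hj1, hj2⟩ := hS.zR x hx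
    rw [own i j x hi hj2]
    exact hj1
  have disLE : Disjoint ZL E := by
    rw [Finset.disjoint_left]
    intro x hx hE
    obtain ⟨j, -, hj2⟩ := hS.zL x hx
    exact Finset.disjoint_left.1 (hS.disE j) hj2 hE
  have disRE : Disjoint ZR E := by
    rw [Finset.disjoint_left]
    intro x hx hE
    obtain ⟨j, -, hj2⟩ := hS.zR x hx
    exact Finset.disjoint_left.1 (hS.disE j) hj2 hE
  have disLR : Disjoint ZL ZR := by
    rw [Finset.disjoint_left]
    intro x hx hR
    obtain ⟨j, hj1, hj2⟩ := hS.zL x hx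
    exact rightR j x hj2 hR hj1
  have gL : 3 * J + 3 ≤ (good R A ZL).card :=
    card_good hS.dis hS.gap hS.dL (by have := hS.cL; omega)
  have gR : 3 * J + 3 ≤ (good R A ZR).card :=
    card_good hS.dis hS.gap hS.dR (by have := hS.cZ; omega)
  obtain ⟨SL, hSL⟩ : ∃ SL : Finset ι, SL = Finset.univ.filter fun i => left i := ⟨_, rfl⟩
  obtain ⟨SR, hSR⟩ : ∃ SR : Finset ι, SR = Finset.univ.filter fun i => ¬ left i := ⟨_, rfl⟩
  have mSL : ∀ i, i ∈ SL ↔ left i := fun i => by rw [hSL]; simp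
  have mSR : ∀ i, i ∈ SR ↔ ¬ left i := fun i => by rw [hSR]; simp
  -- step 1
  have hsum1 : ∑ i ∈ SR, (R i ∩ A).card ≤ J := by
    rw [sum_inter hS.dis, ← hA]
    exact Finset.card_le_card Finset.inter_subset_right
  obtain ⟨T1, h1a, h1b, h1c⟩ := greedy_fam SR (fun i => (R i ∩ A).card) (2 * J + 3)
    (good R A ZL) (fun i _ => ht i) (by omega)
  obtain ⟨X1, hX1⟩ : ∃ X1 : Finset ℤ, X1 = Finset.univ.biUnion T1 := ⟨_, rfl⟩
  have T1g : ∀ i, T1 i ⊆ good R A ZL := by
    intro i
    by_cases hi : i ∈ SR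
    · exact (h1a i hi).1
    · rw [h1b i hi]
      exact Finset.empty_subset _
  have X1g : X1 ⊆ good R A ZL := by
    rw [hX1]
    exact Finset.biUnion_subset.2 fun i _ => T1g i
  have X1Z : ∀ x ∈ X1, x ∈ ZL := fun x hx => (mem_good.1 (X1g hx)).1
  have cX1 : X1.card = ∑ i ∈ SR, (R i ∩ A).card := by
    rw [hX1, Finset.card_biUnion (fun i _ j _ hij => h1c i j hij)]
    symm
    have h2 : ∑ i ∈ SR, (R i ∩ A).card = ∑ i ∈ SR, (T1 i).card :=
      Finset.sum_congr rfl fun i hi => ((h1a i hi).2.1).symm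
    rw [h2]
    refine Finset.sum_subset (Finset.subset_univ _) fun i _ hi => ?_
    rw [h1b i hi, Finset.card_empty]
  have disX1A : Disjoint X1 A := by
    rw [Finset.disjoint_left]
    intro x hx hxA
    obtain ⟨i, -, hi⟩ := hS.zL x (X1Z x hx)
    exact Finset.disjoint_left.1 ((mem_good.1 (X1g hx)).2 i hi) hi hxA
  -- step 2
  have hEA : (E \ A).card = ∑ i, (R i ∩ A).card := by
    rw [sum_inter hS.dis]
    have e1 : A.card = (A ∩ E).card + (Finset.univ.biUnion R ∩ A).card := by
      rw [← Finset.card_union_of_disjoint]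
      · congr 1
        ext x
        simp only [Finset.mem_union, Finset.mem_inter]
        constructor
        · intro hx
          have := hAs hx
          rw [Finset.mem_union] at this
          tauto
        · tauto
      · rw [Finset.disjoint_left]
        intro x hx hx'
        rw [Finset.mem_inter] at hx hx'
        obtain ⟨i, -, hi⟩ := Finset.mem_biUnion.1 hx'.1
        exact Finset.disjoint_left.1 (hS.disE i) hi hx.2
    have e2 := Finset.card_sdiff_add_card_inter E A
    rw [Finset.inter_comm E A] at e2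
    have := hS.cE
    omega
  have hsplit : ∑ i, (R i ∩ A).card = ∑ i ∈ SL, (R i ∩ A).card + ∑ i ∈ SR, (R i ∩ A).card := by
    rw [hSL, hSR]
    exact (Finset.sum_filter_add_sum_filter_not Finset.univ (fun i => left i)
      (fun i => (R i ∩ A).card)).symm
  have hX1L : SL.biUnion R ∩ X1 = X1 := by
    rw [Finset.inter_eq_right]
    intro x hx
    obtain ⟨i, hi1, hi2⟩ := hS.zL x (X1Z x hx)
    exact Finset.mem_biUnion.2 ⟨i, (mSL i).2 hi1, hi2⟩
  have cAX : ∀ i, (R i ∩ (A ∪ X1)).card = (R i ∩ A).card + (R i ∩ X1).card := by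
    intro i
    rw [Finset.inter_union_distrib_left, Finset.card_union_of_disjoint]
    exact disX1A.symm.mono Finset.inter_subset_right Finset.inter_subset_right
  have hsum2 : ∑ i ∈ SL, (R i ∩ (A ∪ X1)).card = (E \ A).card := by
    rw [Finset.sum_congr rfl fun i _ => cAX i, Finset.sum_add_distrib, sum_inter hS.dis SL X1,
      hX1L, cX1, hEA, hsplit]
  have hEJ : (E \ A).card ≤ J := by
    rw [← hS.cE]
    exact Finset.card_le_card Finset.sdiff_subset
  have one1 : ∀ i, (R i ∩ X1).card ≤ 1 := by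
    intro i
    rw [Finset.card_le_one]
    intro x hx y hy
    rw [Finset.mem_inter] at hx hy
    exact uL i x hx.1 y hy.1 (X1Z x hx.2) (X1Z y hy.2)
  obtain ⟨T2, h2a, h2b, h2c⟩ := greedy_fam SL (fun i => (R i ∩ (A ∪ X1)).card) (2 * J + 3)
    (good R A ZR) (by
      intro i _
      rcases Finset.eq_empty_or_nonempty (R i ∩ X1) with h | ⟨x, hx⟩
      · rw [cAX, h, Finset.card_empty, add_zero]
        exact ht i
      · rw [Finset.mem_inter] at hx
        have hd := (mem_good.1 (X1g hx.2)).2 i hx.1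
        rw [cAX, Finset.disjoint_iff_inter_eq_empty.1 hd, Finset.card_empty, zero_add]
        have h1 := one1 i
        have h2 : (R i ∩ X1).card - 1 = 0 := by omega
        rw [h2]
        simp) (by omega)
  obtain ⟨X2, hX2⟩ : ∃ X2 : Finset ℤ, X2 = Finset.univ.biUnion T2 := ⟨_, rfl⟩
  have T2g : ∀ i, T2 i ⊆ good R A ZR := by
    intro i
    by_cases hi : i ∈ SL
    · exact (h2a i hi).1
    · rw [h2b i hi]
      exact Finset.empty_subset _
  have X2g : X2 ⊆ good R A ZR := by
    rw [hX2]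
    exact Finset.biUnion_subset.2 fun i _ => T2g i
  have X2Z : ∀ x ∈ X2, x ∈ ZR := fun x hx => (mem_good.1 (X2g hx)).1
  have cX2 : X2.card = (E \ A).card := by
    rw [← hsum2, hX2, Finset.card_biUnion (fun i _ j _ hij => h2c i j hij)]
    symm
    have h2 : ∑ i ∈ SL, (R i ∩ (A ∪ X1)).card = ∑ i ∈ SL, (T2 i).card :=
      Finset.sum_congr rfl fun i hi => ((h2a i hi).2.1).symm
    rw [h2]
    refine Finset.sum_subset (Finset.subset_univ _) fun i _ hi => ?_
    rw [h2b i hi, Finset.card_empty]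
  have disX2A : Disjoint X2 A := by
    rw [Finset.disjoint_left]
    intro x hx hxA
    obtain ⟨i, -, hi⟩ := hS.zR x (X2Z x hx)
    exact Finset.disjoint_left.1 ((mem_good.1 (X2g hx)).2 i hi) hi hxA
  have one2 : ∀ i, (R i ∩ X2).card ≤ 1 := by
    intro i
    rw [Finset.card_le_one]
    intro x hx y hy
    rw [Finset.mem_inter] at hx hy
    exact uR i x hx.1 y hy.1 (X2Z x hx.2) (X2Z y hy.2)
  -- step 3
  obtain ⟨g, hg1, hg2⟩ : ∃ g : ℤ → ℤ, Set.InjOn g (E \ A : Finset ℤ) ∧
      (E \ A).image g = X2 := by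
    have e : ↥(E \ A) ≃ ↥X2 := Finset.equivOfCardEq cX2.symm
    refine ⟨fun y => if h : y ∈ E \ A then (e ⟨y, h⟩).1 else 0, ?_, ?_⟩
    · intro x hx y hy hxy
      have hx' : x ∈ E \ A := hx
      have hy' : y ∈ E \ A := hy
      simp only [hx', hy', dif_pos] at hxy
      have := e.injective (Subtype.ext hxy)
      exact congrArg Subtype.val this
    · ext y
      rw [Finset.mem_image]
      constructor
      · rintro ⟨x, hx, rfl⟩
        simp only [hx, dif_pos]
        exact (e ⟨x, hx⟩).2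
      · intro hy
        refine ⟨(e.symm ⟨y, hy⟩).1, (e.symm ⟨y, hy⟩).2, ?_⟩
        simp
  obtain ⟨T3, hT3⟩ : ∃ T3 : ι → Finset ℤ, T3 = fun i => (E \ A).filter fun y => g y ∈ R i :=
    ⟨_, rfl⟩
  have mT3 : ∀ i y, y ∈ T3 i ↔ y ∈ E \ A ∧ g y ∈ R i := fun i y => by
    rw [hT3]
    simp only [Finset.mem_filter]
  have cT3 : ∀ i, (T3 i).card = (R i ∩ X2).card := by
    intro i
    have h1 : (T3 i).image g = R i ∩ X2 := by
      ext y
      rw [Finset.mem_image, Finset.mem_inter]
      constructor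
      · rintro ⟨x, hx, rfl⟩
        rw [mT3] at hx
        refine ⟨hx.2, ?_⟩
        rw [← hg2]
        exact Finset.mem_image_of_mem _ hx.1
      · rintro ⟨h1, h2⟩
        rw [← hg2, Finset.mem_image] at h2
        obtain ⟨x, hx, rfl⟩ := h2
        exact ⟨x, (mT3 i x).2 ⟨hx, h1⟩, rfl⟩
    rw [← h1, Finset.card_image_of_injOn]
    refine hg1.mono ?_
    intro y hy
    exact ((mT3 i y).1 hy).1
  -- the final rulers
  obtain ⟨T, hT⟩ : ∃ T : ι → Finset ℤ, T = fun i => if left i then T2 i else T1 i ∪ T3 i :=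
    ⟨_, rfl⟩
  have hTl : ∀ i, left i → T i = T2 i := fun i hi => by rw [hT]; simp only [hi, if_true]
  have hTr : ∀ i, ¬ left i → T i = T1 i ∪ T3 i := fun i hi => by
    rw [hT]; simp only [hi, if_false]
  have T1Z : ∀ i, ∀ x ∈ T1 i, x ∈ ZL := fun i x hx => (mem_good.1 (T1g i hx)).1
  have T2Z : ∀ i, ∀ x ∈ T2 i, x ∈ ZR := fun i x hx => (mem_good.1 (T2g i hx)).1
  have T3E : ∀ i, ∀ x ∈ T3 i, x ∈ E \ A := fun i x hx => ((mT3 i x).1 hx).1
  have T1X : ∀ i, ∀ x ∈ T1 i, x ∈ X1 := fun i x hx => by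
    rw [hX1]; exact Finset.mem_biUnion.2 ⟨i, Finset.mem_univ _, hx⟩
  have T2X : ∀ i, ∀ x ∈ T2 i, x ∈ X2 := fun i x hx => by
    rw [hX2]; exact Finset.mem_biUnion.2 ⟨i, Finset.mem_univ _, hx⟩
  have TX : ∀ i, ∀ x ∈ T i, x ∈ E \ A ∨ x ∈ X1 ∪ X2 := by
    intro i x hx
    by_cases hi : left i
    · rw [hTl i hi] at hx
      exact Or.inr (Finset.mem_union_right _ (T2X i x hx))
    · rw [hTr i hi, Finset.mem_union] at hx
      rcases hx with hx | hx
      · exact Or.inr (Finset.mem_union_left _ (T1X i x hx))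
      · exact Or.inl (T3E i x hx)
  have dis13 : ∀ i j, Disjoint (T1 i) (T3 j) := by
    intro i j
    rw [Finset.disjoint_left]
    intro x hx hx'
    exact Finset.disjoint_left.1 disLE (T1Z i x hx) (Finset.mem_sdiff.1 (T3E j x hx')).1
  have dis12 : ∀ i j, Disjoint (T1 i) (T2 j) := by
    intro i j
    rw [Finset.disjoint_left]
    intro x hx hx'
    exact Finset.disjoint_left.1 disLR (T1Z i x hx) (T2Z j x hx')
  have dis23 : ∀ i j, Disjoint (T2 i) (T3 j) := by
    intro i j
    rw [Finset.disjoint_left]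
    intro x hx hx'
    exact Finset.disjoint_left.1 disRE (T2Z i x hx) (Finset.mem_sdiff.1 (T3E j x hx')).1
  have dis33 : ∀ i j, i ≠ j → Disjoint (T3 i) (T3 j) := by
    intro i j hij
    rw [Finset.disjoint_left]
    intro x hx hx'
    exact hij (own i j _ ((mT3 i x).1 hx).2 ((mT3 j x).1 hx').2)
  have disT : ∀ i j, i ≠ j → Disjoint (T i) (T j) := by
    intro i j hij
    by_cases hi : left i <;> by_cases hj : left j
    · rw [hTl i hi, hTl j hj]
      exact h2c i j hij
    · rw [hTl i hi, hTr j hj, Finset.disjoint_union_right]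
      exact ⟨(dis12 j i).symm, dis23 i j⟩
    · rw [hTr i hi, hTl j hj, Finset.disjoint_union_left]
      exact ⟨dis12 i j, (dis23 j i).symm⟩
    · rw [hTr i hi, hTr j hj, Finset.disjoint_union_left, Finset.disjoint_union_right,
        Finset.disjoint_union_right]
      exact ⟨⟨h1c i j hij, dis13 i j⟩, (dis13 j i).symm, dis33 i j hij⟩
  have RX1 : ∀ i, ¬ left i → R i ∩ X1 = ∅ := by
    intro i hi
    rw [← Finset.disjoint_iff_inter_eq_empty, Finset.disjoint_left]
    intro x hx hx'
    exact hi (leftL i x hx (X1Z x hx'))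
  have RX2 : ∀ i, left i → R i ∩ X2 = ∅ := by
    intro i hi
    rw [← Finset.disjoint_iff_inter_eq_empty, Finset.disjoint_left]
    intro x hx hx'
    exact rightR i x hx (X2Z x hx') hi
  have cT : ∀ i, (T i).card = (R i ∩ (A ∪ (X1 ∪ X2))).card := by
    intro i
    by_cases hi : left i
    · rw [hTl i hi, (h2a i ((mSL i).2 hi)).2.1, ← Finset.union_assoc,
        Finset.inter_union_distrib_left (R i) (A ∪ X1), RX2 i hi, Finset.union_empty]
    · rw [hTr i hi, Finset.card_union_of_disjoint (dis13 i i), (h1a i ((mSR i).2 hi)).2.1, cT3,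
        Finset.union_comm X1 X2, ← Finset.union_assoc,
        Finset.inter_union_distrib_left (R i) (A ∪ X2), RX1 i hi, Finset.union_empty,
        Finset.inter_union_distrib_left, Finset.card_union_of_disjoint]
      exact disX2A.symm.mono Finset.inter_subset_right Finset.inter_subset_right
  have XR : ∀ x ∈ X1 ∪ X2, ∃ i, x ∈ R i := by
    intro x hx
    rcases Finset.mem_union.1 hx with h | h
    · obtain ⟨i, -, hi⟩ := hS.zL x (X1Z x h)
      exact ⟨i, hi⟩
    · obtain ⟨i, -, hi⟩ := hS.zR x (X2Z x h)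
      exact ⟨i, hi⟩
  have disRT : ∀ i j, Disjoint (R i \ (A ∪ (X1 ∪ X2))) (T j) := by
    intro i j
    rw [Finset.disjoint_left]
    intro x hx hx'
    rw [Finset.mem_sdiff] at hx
    rcases TX j x hx' with h | h
    · exact Finset.disjoint_left.1 (hS.disE i) hx.1 (Finset.mem_sdiff.1 h).1
    · exact hx.2 (Finset.mem_union_right _ h)
  refine ⟨fun i => R i \ (A ∪ (X1 ∪ X2)) ∪ T i, ?_, ?_⟩
  · intro i
    refine ⟨?_, ?_, ?_⟩
    · rw [Finset.card_union_of_disjoint (disRT i i), cT]
      have := Finset.card_sdiff_add_card_inter (R i) (A ∪ (X1 ∪ X2))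
      rw [this, hS.cR]
    · have hRg : Golomb (R i \ (A ∪ (X1 ∪ X2))) := (hS.gol i).mono Finset.sdiff_subset
      have sub : ∀ x ∈ R i \ (A ∪ (X1 ∪ X2)), x ∈ R i := fun x hx => (Finset.mem_sdiff.1 hx).1
      by_cases hi : left i
      · refine union_gol (δ := δ) (σ := 1) (Or.inl rfl) hRg ?_ ?_ ?_ ?_ ?_
        · rw [hTl i hi]
          exact (h2a i ((mSL i).2 hi)).2.2
        · intro x hx y hy
          exact hS.gap i x (sub x hx) y (sub y hy)
        · intro x hx y hy
          rw [hTl i hi] at hx hy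
          exact hS.dR x (T2Z i x hx) y (T2Z i y hy)
        · intro x hx y hy z hz e he
          rw [hTl i hi] at he
          rw [one_mul]
          exact (hS.farL i hi x (sub x hx) y (sub y hy) z (sub z hz) e (T2Z i e he)).1
        · intro z hz e he
          rw [hTl i hi] at he
          rw [one_mul]
          exact (hS.farL i hi z (sub z hz) z (sub z hz) z (sub z hz) e (T2Z i e he)).2
      · have hTE : ∀ x ∈ T i, x ∈ ZL ∪ E := by
          intro x hx
          rw [hTr i hi, Finset.mem_union] at hx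
          rcases hx with hx | hx
          · exact Finset.mem_union_left _ (T1Z i x hx)
          · exact Finset.mem_union_right _ (Finset.mem_sdiff.1 (T3E i x hx)).1
        have hcase : Golomb (T i) ∧ ∀ x ∈ T i, ∀ y ∈ T i, |x - y| < δ := by
          rcases Finset.eq_empty_or_nonempty (R i ∩ X2) with h | ⟨x, hx⟩
          · have h3 : T3 i = ∅ := by
              rw [← Finset.card_eq_zero, cT3, h, Finset.card_empty]
            rw [hTr i hi, h3, Finset.union_empty]
            exact ⟨(h1a i ((mSR i).2 hi)).2.2, fun x hx y hy =>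
              hS.dL x (T1Z i x hx) y (T1Z i y hy)⟩
          · rw [Finset.mem_inter] at hx
            have hd := (mem_good.1 (X2g hx.2)).2 i hx.1
            have h1 : T1 i = ∅ := by
              rw [← Finset.card_eq_zero, (h1a i ((mSR i).2 hi)).2.1,
                Finset.disjoint_iff_inter_eq_empty.1 hd, Finset.card_empty]
            have h3 : (T i).card ≤ 1 := by
              rw [hTr i hi, h1, Finset.empty_union, cT3]
              exact one2 i
            refine ⟨golomb_le_one h3, fun x hx y hy => ?_⟩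
            rw [Finset.card_le_one.1 h3 x hx y hy, sub_self, abs_zero]
            exact hS.pos
        refine union_gol (δ := δ) (σ := -1) (Or.inr rfl) hRg hcase.1 ?_ hcase.2 ?_ ?_
        · intro x hx y hy
          exact hS.gap i x (sub x hx) y (sub y hy)
        · intro x hx y hy z hz e he
          have := (hS.farR i hi x (sub x hx) y (sub y hy) z (sub z hz) e (hTE e he)).1
          linarith
        · intro z hz e he
          have := (hS.farR i hi z (sub z hz) z (sub z hz) z (sub z hz) e (hTE e he)).2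
          linarith
    · intro x hx
      rw [Finset.mem_union] at hx
      rw [Finset.mem_sdiff, Finset.mem_union]
      rcases hx with hx | hx
      · rw [Finset.mem_sdiff, Finset.mem_union, not_or] at hx
        exact ⟨Or.inr (Finset.mem_biUnion.2 ⟨i, Finset.mem_univ _, hx.1⟩), hx.2.1⟩
      · rcases TX i x hx with h | h
        · rw [Finset.mem_sdiff] at h
          exact ⟨Or.inl h.1, h.2⟩
        · obtain ⟨j, hj⟩ := XR x h
          refine ⟨Or.inr (Finset.mem_biUnion.2 ⟨j, Finset.mem_univ _, hj⟩), ?_⟩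
          rcases Finset.mem_union.1 h with h | h
          · exact Finset.disjoint_left.1 disX1A h
          · exact Finset.disjoint_left.1 disX2A h
  · intro i j hij
    simp only [Finset.disjoint_union_left, Finset.disjoint_union_right]
    exact ⟨⟨(hS.dis i j hij).mono Finset.sdiff_subset Finset.sdiff_subset,
      (disRT j i).symm⟩, ⟨disRT i j, disT i j hij⟩⟩

end Pool.Agent.GRX
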