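import Pool.Agent.GRX.Basic

/-!
# Golomb rulers: the structured rulers (MP_61bf50_co)
-/

set_option autoImplicit false

namespace Pool.Agent.GRX

/-- the quadratic function modulo `p` -/
def gq (p a b k : ℕ) : ℕ := (a * k ^ 2 + b * k) % p

/-- the column of the ruler `c` in a row with shift `g`: two cyclic halves -/
def ph (w c g : ℕ) : ℕ :=
  if c < (w + 1) / 2 then (if g + c < (w + 1) / 2 then g + c else g + c - (w + 1) / 2)
  else (if g + c < w then g + c else g + c - w / 2)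

theorem ph_lt {p w c g : ℕ} (hw : 2 * p ≤ w / 2 + 1) (hg : g < p) (hc : c < w) :
    ph w c g < w := by
  unfold ph
  split_ifs <;> omega

theorem ph_inj {p w c c' g : ℕ} (hw : 2 * p ≤ w / 2 + 1) (hg : g < p) (hc : c < w)
    (hc' : c' < w) (h : ph w c g = ph w c' g) : c = c' := by
  unfold ph at h
  split_ifs at h <;> omega

theorem ph_surj {p w g r : ℕ} (hw : 2 * p ≤ w / 2 + 1) (hg : g < p) (hr : r < w) :
    ∃ c < w, ph w c g = r := by
  by_cases h1 : r < (w + 1) / 2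
  · by_cases h2 : g ≤ r
    · refine ⟨r - g, by omega, ?_⟩
      unfold ph
      split_ifs <;> omega
    · refine ⟨r + (w + 1) / 2 - g, by omega, ?_⟩
      unfold ph
      split_ifs <;> omega
  · by_cases h2 : g ≤ r - (w + 1) / 2
    · refine ⟨r - g, by omega, ?_⟩
      unfold ph
      split_ifs <;> omega
    · refine ⟨r + w / 2 - g, by omega, ?_⟩
      unfold ph
      split_ifs <;> omega

/-- columns of one ruler are close -/
theorem ph_close {p w c g g' : ℕ} (hw : 2 * p ≤ w / 2 + 1) (hg : g < p) (hg' : g' < p)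
    (hc : c < w) : (ph w c g : ℤ) - ph w c g' ≤ (w + 1) / 2 - 1 := by
  unfold ph
  split_ifs <;> omega

/-- the key: equal column differences give equal shift differences -/
theorem ph_key {p w c c' g1 g2 g1' g2' : ℕ} (hw : 2 * p ≤ w / 2 + 1) (h1 : g1 < p) (h2 : g2 < p)
    (h1' : g1' < p) (h2' : g2' < p) (hc : c < w) (hc' : c' < w)
    (e1 : ph w c g1 = ph w c' g1') (e2 : ph w c g2 = ph w c' g2') :
    (g1 : ℤ) - g2 = g1' - g2' := by
  unfold ph at e1 e2
  split_ifs at e1 e2 <;> omega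

theorem ph_key' {p w c g1 g2 g1' g2' : ℕ} (hw : 2 * p ≤ w / 2 + 1) (h1 : g1 < p) (h2 : g2 < p)
    (h1' : g1' < p) (h2' : g2' < p) (hc : c < w)
    (e : (ph w c g1 : ℤ) - ph w c g2 = ph w c g1' - ph w c g2') :
    (g1 : ℤ) - g2 = g1' - g2' := by
  unfold ph at e
  split_ifs at e <;> omega

/-- the point of the ruler `c` in row `k` -/
def pt (p a b : ℕ) (s : ℤ) (w c k : ℕ) : ℤ := s + ((k * w + ph w c (gq p a b k) : ℕ) : ℤ)

/-- the structured ruler -/
def rul (p a b J : ℕ) (s : ℤ) (w c : ℕ) : Finset ℤ := (Finset.range J).image (pt p a b s w c)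

theorem mem_rul {p a b J : ℕ} {s : ℤ} {w c : ℕ} {x : ℤ} :
    x ∈ rul p a b J s w c ↔ ∃ k < J, x = pt p a b s w c k := by
  unfold rul
  rw [Finset.mem_image]
  constructor
  · rintro ⟨k, hk, rfl⟩
    exact ⟨k, Finset.mem_range.1 hk, rfl⟩
  · rintro ⟨k, hk, rfl⟩
    exact ⟨k, Finset.mem_range.2 hk, rfl⟩

theorem gq_lt {p : ℕ} (hp : 0 < p) (a b k : ℕ) : gq p a b k < p := Nat.mod_lt _ hp

theorem gq_dvd (p a b k : ℕ) :
    (p : ℤ) ∣ ((a : ℤ) * k ^ 2 + b * k) - gq p a b k := by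
  unfold gq
  have h := Nat.mod_add_div (a * k ^ 2 + b * k) p
  refine ⟨((a * k ^ 2 + b * k) / p : ℕ), ?_⟩
  have h2 : ((a * k ^ 2 + b * k : ℕ) : ℤ) =
      ((a * k ^ 2 + b * k) % p : ℕ) + p * ((a * k ^ 2 + b * k) / p : ℕ) := by
    exact_mod_cast h.symm
  push_cast at h2 ⊢
  linarith

theorem rows_eq {w k k' r r' : ℕ} (hr : r < w) (hr' : r' < w) (h : k * w + r = k' * w + r') :
    k = k' ∧ r = r' := by
  rcases lt_trichotomy k k' with hk | hk | hk
  · exfalso
    have : (k + 1) * w ≤ k' * w := Nat.mul_le_mul_right w hk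
    rw [add_mul, one_mul] at this
    omega
  · subst hk
    exact ⟨rfl, by omega⟩
  · exfalso
    have : (k' + 1) * w ≤ k * w := Nat.mul_le_mul_right w hk
    rw [add_mul, one_mul] at this
    omega

theorem small_mul {t w u : ℤ} (h : t * w = u) (h1 : -w < u) (h2 : u < w) : t = 0 := by
  rcases lt_trichotomy t 0 with ht | ht | ht
  · exfalso
    have : t ≤ -1 := by omega
    nlinarith
  · exact ht
  · exfalso
    have : 1 ≤ t := by omega
    nlinarith

section
variable {p a b J : ℕ} {s : ℤ} {w c : ℕ}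

theorem pt_inj (hw : 2 * p ≤ w / 2 + 1) (hp : 0 < p) (hc : c < w) {k l : ℕ}
    (h : pt p a b s w c k = pt p a b s w c l) : k = l := by
  unfold pt at h
  have h1 : k * w + ph w c (gq p a b k) = l * w + ph w c (gq p a b l) := by
    exact_mod_cast add_left_cancel h
  exact (rows_eq (ph_lt hw (gq_lt hp _ _ _) hc) (ph_lt hw (gq_lt hp _ _ _) hc) h1).1

theorem card_rul (hw : 2 * p ≤ w / 2 + 1) (hp : 0 < p) (hc : c < w) :
    (rul p a b J s w c).card = J := by
  unfold rul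
  rw [Finset.card_image_of_injective _ (fun k l h => pt_inj hw hp hc h), Finset.card_range]

theorem pt_sub (k l : ℕ) : pt p a b s w c k - pt p a b s w c l =
    ((k : ℤ) - l) * w + ((ph w c (gq p a b k) : ℤ) - ph w c (gq p a b l)) := by
  unfold pt
  push_cast
  ring

theorem gol_rul (hpr : p.Prime) (hJ : J < p) (ha : 0 < a) (hap : a < p)
    (hw : 2 * p ≤ w / 2 + 1) (hc : c < w) : Golomb (rul p a b J s w c) := by
  have hp : 0 < p := hpr.pos
  intro x hx y hy x' hx' y' hy' hne he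
  obtain ⟨k, hk, rfl⟩ := mem_rul.1 hx
  obtain ⟨l, hl, rfl⟩ := mem_rul.1 hy
  obtain ⟨k', hk', rfl⟩ := mem_rul.1 hx'
  obtain ⟨l', hl', rfl⟩ := mem_rul.1 hy'
  have hkl : k ≠ l := fun h => hne (by rw [h])
  rw [pt_sub, pt_sub] at he
  have g1 := gq_lt hp a b k
  have g2 := gq_lt hp a b l
  have g3 := gq_lt hp a b k'
  have g4 := gq_lt hp a b l'
  have c1 := ph_close hw g1 g2 hc
  have c2 := ph_close hw g2 g1 hc
  have c3 := ph_close hw g3 g4 hc
  have c4 := ph_close hw g4 g3 hc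
  have h0 : ((k : ℤ) - l) - (k' - l') = 0 := by
    refine small_mul (w := (w : ℤ)) (u := ((ph w c (gq p a b k') : ℤ) - ph w c (gq p a b l')) -
      ((ph w c (gq p a b k) : ℤ) - ph w c (gq p a b l))) ?_ ?_ ?_
    · linarith
    · omega
    · omega
  have hd : (k : ℤ) - l = k' - l' := by linarith
  rw [hd] at he
  have he2 := add_left_cancel he
  have hg := ph_key' hw g1 g2 g3 g4 hc he2
  obtain ⟨q1, e1⟩ := gq_dvd p a b k
  obtain ⟨q2, e2⟩ := gq_dvd p a b l
  obtain ⟨q3, e3⟩ := gq_dvd p a b k'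
  obtain ⟨q4, e4⟩ := gq_dvd p a b l'
  have hdvd : (p : ℤ) ∣ a * (((k : ℤ) - l) * (2 * (k - k'))) := by
    refine ⟨q1 - q2 - q3 + q4, ?_⟩
    have hl'' : (l' : ℤ) = k' - (k - l) := by linarith
    have e5 : (a : ℤ) * (((k : ℤ) - l) * (2 * (k - k'))) =
        ((a : ℤ) * k ^ 2 + b * k) - ((a : ℤ) * l ^ 2 + b * l) - ((a : ℤ) * k' ^ 2 + b * k') +
          ((a : ℤ) * l' ^ 2 + b * l') := by
      rw [hl'']
      ring
    rw [e5]
    linear_combination e1 - e2 - e3 + e4 + hg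
  have hpi : Prime (p : ℤ) := Nat.prime_iff_prime_int.1 hpr
  have no : ∀ t : ℤ, t ≠ 0 → |t| < p → ¬ (p : ℤ) ∣ t := fun t ht hlt h =>
    absurd (Int.le_of_dvd (abs_pos.2 ht) ((dvd_abs _ _).2 h)) (not_le.2 hlt)
  have hkk : k = k' := by
    rcases hpi.dvd_or_dvd hdvd with h | h
    · exact absurd h (no a (by omega) (by rw [abs_of_nonneg (by omega)]; exact_mod_cast hap))
    · rcases hpi.dvd_or_dvd h with h | h
      · exact absurd h (no _ (by omega) (by rw [abs_lt]; omega))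
      · rcases hpi.dvd_or_dvd h with h | h
        · exact absurd h (no 2 (by norm_num) (by rw [abs_of_nonneg (by norm_num)]; omega))
        · by_contra hne'
          exact absurd h (no _ (by omega) (by rw [abs_lt]; omega))
  subst hkk
  have : l = l' := by omega
  subst this
  exact ⟨rfl, rfl⟩

theorem gap_aux (hw : 2 * p ≤ w / 2 + 1) (hp : 0 < p) (hc : c < w) {k l : ℕ} (h : k < l) :
    (w : ℤ) / 2 + 1 ≤ pt p a b s w c l - pt p a b s w c k := by
  rw [pt_sub]
  have c1 := ph_close hw (gq_lt hp a b k) (gq_lt hp a b l) hc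
  have h1 : (1 : ℤ) * w ≤ ((l : ℤ) - k) * w :=
    mul_le_mul_of_nonneg_right (by omega) (by positivity)
  omega

theorem gap_rul (hw : 2 * p ≤ w / 2 + 1) (hp : 0 < p) (hc : c < w) :
    ∀ x ∈ rul p a b J s w c, ∀ y ∈ rul p a b J s w c, x ≠ y → (w : ℤ) / 2 + 1 ≤ |x - y| := by
  intro x hx y hy hne
  obtain ⟨k, hk, rfl⟩ := mem_rul.1 hx
  obtain ⟨l, hl, rfl⟩ := mem_rul.1 hy
  rcases lt_trichotomy k l with h | h | h
  · rw [abs_sub_comm]
    exact (gap_aux hw hp hc h).trans (le_abs_self _)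
  · exact absurd (by rw [h]) hne
  · exact (gap_aux hw hp hc h).trans (le_abs_self _)

theorem diam_rul (hw : 2 * p ≤ w / 2 + 1) (hp : 0 < p) (hc : c < w) :
    ∀ x ∈ rul p a b J s w c, ∀ y ∈ rul p a b J s w c,
      x - y ≤ ((J : ℤ) - 1) * w + ((w + 1) / 2 - 1) := by
  intro x hx y hy
  obtain ⟨k, hk, rfl⟩ := mem_rul.1 hx
  obtain ⟨l, hl, rfl⟩ := mem_rul.1 hy
  rw [pt_sub]
  have c1 := ph_close hw (gq_lt hp a b k) (gq_lt hp a b l) hc
  have h1 : ((k : ℤ) - l) * w ≤ ((J : ℤ) - 1) * w :=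
    mul_le_mul_of_nonneg_right (by omega) (by positivity)
  omega

theorem range_rul (hw : 2 * p ≤ w / 2 + 1) (hp : 0 < p) (hc : c < w) :
    ∀ x ∈ rul p a b J s w c, s ≤ x ∧ x < s + w * J := by
  intro x hx
  obtain ⟨k, hk, rfl⟩ := mem_rul.1 hx
  have h1 := ph_lt hw (gq_lt hp a b k) hc
  have h2 : (k + 1) * w ≤ J * w := Nat.mul_le_mul_right w hk
  rw [add_mul, one_mul] at h2
  have h3 : ((k * w + ph w c (gq p a b k) : ℕ) : ℤ) < ((J * w : ℕ) : ℤ) := by
    exact_mod_cast (by omega : k * w + ph w c (gq p a b k) < J * w)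
  unfold pt
  push_cast at h3 ⊢
  constructor
  · have : (0 : ℤ) ≤ (k : ℤ) * w + ph w c (gq p a b k) := by positivity
    linarith
  · linarith

theorem dis_rul (hw : 2 * p ≤ w / 2 + 1) (hp : 0 < p) {c' : ℕ} (hc : c < w) (hc' : c' < w)
    (hne : c ≠ c') : Disjoint (rul p a b J s w c) (rul p a b J s w c') := by
  rw [Finset.disjoint_left]
  intro x hx hx'
  obtain ⟨k, hk, rfl⟩ := mem_rul.1 hx
  obtain ⟨l, hl, h⟩ := mem_rul.1 hx'
  unfold pt at h
  have h1 : k * w + ph w c (gq p a b k) = l * w + ph w c' (gq p a b l) := by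
    exact_mod_cast add_left_cancel h
  obtain ⟨h2, h3⟩ := rows_eq (ph_lt hw (gq_lt hp _ _ _) hc) (ph_lt hw (gq_lt hp _ _ _) hc') h1
  rw [← h2] at h3
  exact hne (ph_inj hw (gq_lt hp _ _ _) hc hc' h3)

theorem cover_rul (hw : 2 * p ≤ w / 2 + 1) (hp : 0 < p) (a b : ℕ) {x : ℤ} (h1 : s ≤ x)
    (h2 : x < s + w * J) : ∃ c < w, x ∈ rul p a b J s w c := by
  obtain ⟨n, hn⟩ := Int.eq_ofNat_of_zero_le (sub_nonneg.2 h1)
  have hw0 : 0 < w := by omega
  have hnJ : n < J * w := by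
    have : (n : ℤ) < J * w := by rw [← hn]; linarith
    exact_mod_cast this
  have hk : n / w < J := Nat.div_lt_of_lt_mul (by rw [mul_comm]; exact hnJ)
  obtain ⟨c, hc, hcr⟩ := ph_surj hw (gq_lt hp a b (n / w)) (Nat.mod_lt n hw0)
  refine ⟨c, hc, mem_rul.2 ⟨n / w, hk, ?_⟩⟩
  unfold pt
  rw [hcr]
  have h3 : n / w * w + n % w = n := Nat.div_add_mod' n w
  rw [h3]
  have : x - s = (n : ℤ) := hn
  linarith

end

/-- two common points of rulers with different parameters -/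
theorem two_common {p a b a' b' J : ℕ} {s : ℤ} {w c c' : ℕ} (hpr : p.Prime) (hJ : J < p)
    (hw : 2 * p ≤ w / 2 + 1) (hc : c < w) (hc' : c' < w) {k l : ℕ} (hk : k < J) (hl : l < J)
    (hkl : k ≠ l) (h1 : pt p a b s w c k = pt p a' b' s w c' k)
    (h2 : pt p a b s w c l = pt p a' b' s w c' l) :
    (p : ℤ) ∣ ((a : ℤ) - a') * (k + l) + (b - b') := by
  have hp := hpr.pos
  have e1 : ph w c (gq p a b k) = ph w c' (gq p a' b' k) := by
    unfold pt at h1
    have : k * w + ph w c (gq p a b k) = k * w + ph w c' (gq p a' b' k) := by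
      exact_mod_cast add_left_cancel h1
    exact add_left_cancel this
  have e2 : ph w c (gq p a b l) = ph w c' (gq p a' b' l) := by
    unfold pt at h2
    have : l * w + ph w c (gq p a b l) = l * w + ph w c' (gq p a' b' l) := by
      exact_mod_cast add_left_cancel h2
    exact add_left_cancel this
  have hg := ph_key hw (gq_lt hp a b k) (gq_lt hp a b l) (gq_lt hp a' b' k)
    (gq_lt hp a' b' l) hc hc' e1 e2
  obtain ⟨q1, d1⟩ := gq_dvd p a b k
  obtain ⟨q2, d2⟩ := gq_dvd p a b l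
  obtain ⟨q3, d3⟩ := gq_dvd p a' b' k
  obtain ⟨q4, d4⟩ := gq_dvd p a' b' l
  have hdvd : (p : ℤ) ∣ ((k : ℤ) - l) * (((a : ℤ) - a') * (k + l) + (b - b')) := by
    refine ⟨q1 - q2 - q3 + q4, ?_⟩
    linear_combination d1 - d2 - d3 + d4 + hg
  have hpi : Prime (p : ℤ) := Nat.prime_iff_prime_int.1 hpr
  rcases hpi.dvd_or_dvd hdvd with h | h
  · exfalso
    have h3 : (k : ℤ) - l ≠ 0 := by omega
    have h4 := Int.le_of_dvd (abs_pos.2 h3) ((dvd_abs _ _).2 h)
    have h5 : |(k : ℤ) - l| < p := by rw [abs_lt]; omega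
    omega
  · exact h

/-- three common points determine the parameters -/
theorem three_common {p a b a' b' J : ℕ} {s : ℤ} {w c c' : ℕ} (hpr : p.Prime) (hJ : J < p)
    (hw : 2 * p ≤ w / 2 + 1) (hc : c < w) (hc' : c' < w) (ha : a < p) (ha' : a' < p)
    (hb : b < p) (hb' : b' < p) {x y z : ℤ} (hxy : x ≠ y) (hxz : x ≠ z) (hyz : y ≠ z)
    (hx : x ∈ rul p a b J s w c) (hy : y ∈ rul p a b J s w c) (hz : z ∈ rul p a b J s w c)
    (hx' : x ∈ rul p a' b' J s w c') (hy' : y ∈ rul p a' b' J s w c')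
    (hz' : z ∈ rul p a' b' J s w c') : a = a' ∧ b = b' := by
  have hp := hpr.pos
  have same : ∀ x, x ∈ rul p a b J s w c → x ∈ rul p a' b' J s w c' →
      ∃ k < J, x = pt p a b s w c k ∧ x = pt p a' b' s w c' k := by
    intro x hx hx'
    obtain ⟨k, hk, h1⟩ := mem_rul.1 hx
    obtain ⟨l, hl, h2⟩ := mem_rul.1 hx'
    have h3 : pt p a b s w c k = pt p a' b' s w c' l := by rw [← h1, ← h2]
    unfold pt at h3
    have h4 : k * w + ph w c (gq p a b k) = l * w + ph w c' (gq p a' b' l) := by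
      exact_mod_cast add_left_cancel h3
    obtain ⟨h5, -⟩ := rows_eq (ph_lt hw (gq_lt hp _ _ _) hc) (ph_lt hw (gq_lt hp _ _ _) hc') h4
    subst h5
    exact ⟨k, hk, h1, h2⟩
  obtain ⟨k, hk, k1, k2⟩ := same x hx hx'
  obtain ⟨l, hl, l1, l2⟩ := same y hy hy'
  obtain ⟨j, hj, j1, j2⟩ := same z hz hz'
  have hkl : k ≠ l := fun h => hxy (by rw [k1, l1, h])
  have hkj : k ≠ j := fun h => hxz (by rw [k1, j1, h])
  have hlj : l ≠ j := fun h => hyz (by rw [l1, j1, h])
  have d1 := two_common hpr hJ hw hc hc' hk hl hkl (k1.symm.trans k2) (l1.symm.trans l2)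
  have d2 := two_common hpr hJ hw hc hc' hk hj hkj (k1.symm.trans k2) (j1.symm.trans j2)
  have hpi : Prime (p : ℤ) := Nat.prime_iff_prime_int.1 hpr
  have d3 : (p : ℤ) ∣ ((a : ℤ) - a') * ((l : ℤ) - j) := by
    have := dvd_sub d1 d2
    have e : ((a : ℤ) - a') * (k + l) + (b - b') - (((a : ℤ) - a') * (k + j) + (b - b')) =
        ((a : ℤ) - a') * ((l : ℤ) - j) := by ring
    rwa [e] at this
  have no : ∀ t : ℤ, |t| < p → (p : ℤ) ∣ t → t = 0 := fun t hlt h => by
    by_contra ht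
    exact absurd (Int.le_of_dvd (abs_pos.2 ht) ((dvd_abs _ _).2 h)) (not_le.2 hlt)
  have haa : (a : ℤ) - a' = 0 := by
    rcases hpi.dvd_or_dvd d3 with h | h
    · exact no _ (by rw [abs_lt]; omega) h
    · exfalso
      have := no _ (by rw [abs_lt]; omega) h
      omega
  rw [haa, zero_mul, zero_add] at d1
  have hbb := no _ (by rw [abs_lt]; omega) d1
  exact ⟨by omega, by omega⟩

end Pool.Agent.GRX
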