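import Pool.Agent.GRX.Exchange
import Pool.Agent.GRX.Rulers

/-!
# Golomb rulers: assembly (MP_61bf50_co)
-/

set_option autoImplicit false

namespace Pool.Agent.GRX

/-- widths of the three blocks -/
def wid (w m : ℕ) (β : Fin 3) : ℕ := if β = 0 then w else m

/-- first points of the three blocks -/
def bas (J w m : ℕ) (β : Fin 3) : ℤ :=
  if β = 0 then J + 1 else if β = 1 then J + 1 + w * J else J + 1 + w * J + m * J

/-- the index set of the structured rulers -/
abbrev Idx (w m : ℕ) : Type := Σ β : Fin 3, Fin (wid w m β)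

/-- the structured rulers -/
def RR (p a b J w m : ℕ) (i : Idx w m) : Finset ℤ :=
  rul p a b J (bas J w m i.1) (wid w m i.1) i.2

theorem wid_cases {w m : ℕ} (β : Fin 3) : wid w m β = w ∨ wid w m β = m := by
  unfold wid
  by_cases h : β = 0
  · exact Or.inl (if_pos h)
  · exact Or.inr (if_neg h)

section
variable {p a b J w m : ℕ}

theorem wid_ok (hw : 2 * p ≤ w / 2 + 1) (hm : 2 * p ≤ m / 2 + 1) (β : Fin 3) :
    2 * p ≤ wid w m β / 2 + 1 := by
  rcases wid_cases (w := w) (m := m) β with h | h <;> rw [h] <;> assumption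

theorem block_dis {β γ : Fin 3} {x : ℤ} (h : bas J w m β ≤ x)
    (h' : x < bas J w m β + wid w m β * J) (h2 : bas J w m γ ≤ x)
    (h2' : x < bas J w m γ + wid w m γ * J) : β = γ := by
  have e1 : (0 : ℤ) ≤ w * J := by positivity
  have e2 : (0 : ℤ) ≤ m * J := by positivity
  fin_cases β <;> fin_cases γ <;> simp [bas, wid] at h h' h2 h2' ⊢ <;> linarith

theorem RR_range (hw : 2 * p ≤ w / 2 + 1) (hm : 2 * p ≤ m / 2 + 1) (hp : 0 < p) (i : Idx w m)
    {x : ℤ} (hx : x ∈ RR p a b J w m i) :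
    bas J w m i.1 ≤ x ∧ x < bas J w m i.1 + wid w m i.1 * J :=
  range_rul (wid_ok hw hm i.1) hp i.2.2 x hx

theorem RR_dis (hw : 2 * p ≤ w / 2 + 1) (hm : 2 * p ≤ m / 2 + 1) (hp : 0 < p) (i j : Idx w m)
    (hij : i ≠ j) : Disjoint (RR p a b J w m i) (RR p a b J w m j) := by
  obtain ⟨β, c⟩ := i
  obtain ⟨γ, c'⟩ := j
  rw [Finset.disjoint_left]
  intro x hx hx'
  have h1 := RR_range hw hm hp _ hx
  have h2 := RR_range hw hm hp _ hx'
  have hβ : β = γ := block_dis h1.1 h1.2 h2.1 h2.2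
  subst hβ
  have hc : c.1 ≠ c'.1 := fun h => hij (by rw [Fin.ext h])
  exact Finset.disjoint_left.1 (dis_rul (wid_ok hw hm β) hp c.2 c'.2 hc) hx hx'

theorem RR_cover (hw : 2 * p ≤ w / 2 + 1) (hm : 2 * p ≤ m / 2 + 1) (hp : 0 < p) (a b : ℕ)
    (β : Fin 3) {x : ℤ} (h1 : bas J w m β ≤ x) (h2 : x < bas J w m β + wid w m β * J) :
    ∃ c : Fin (wid w m β), x ∈ RR p a b J w m ⟨β, c⟩ := by
  obtain ⟨c, hc, hx⟩ := cover_rul (wid_ok hw hm β) hp a b h1 h2
  exact ⟨⟨c, hc⟩, hx⟩

/-- the three blocks and the first `J` points cover everything -/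
theorem all_cover (hw : 2 * p ≤ w / 2 + 1) (hm : 2 * p ≤ m / 2 + 1) (hp : 0 < p) (a b : ℕ) :
    Finset.Icc (1 : ℤ) J ∪ Finset.univ.biUnion (RR p a b J w m) =
      Finset.Icc (1 : ℤ) ((w + 2 * m + 1) * J) := by
  have e1 : (0 : ℤ) ≤ w * J := by positivity
  have e2 : (0 : ℤ) ≤ m * J := by positivity
  have e3 : (0 : ℤ) ≤ J := by positivity
  ext x
  rw [Finset.mem_union, Finset.mem_biUnion, Finset.mem_Icc, Finset.mem_Icc]
  constructor
  · rintro (h | ⟨⟨β, c⟩, -, hx⟩)
    · constructor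
      · exact h.1
      · nlinarith [h.2]
    · have h1 := RR_range hw hm hp _ hx
      fin_cases β <;> simp [bas, wid] at h1 <;> constructor <;> nlinarith [h1.1, h1.2]
  · rintro ⟨h1, h2⟩
    by_cases hJ : x ≤ J
    · exact Or.inl ⟨h1, hJ⟩
    · right
      push Not at hJ
      by_cases h3 : x < J + 1 + w * J
      · obtain ⟨c, hc⟩ := RR_cover (J := J) (x := x) hw hm hp a b 0 (by simp [bas]; omega)
          (by simp [bas, wid]; linarith)
        exact ⟨_, Finset.mem_univ _, hc⟩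
      · push Not at h3
        by_cases h4 : x < J + 1 + w * J + m * J
        · obtain ⟨c, hc⟩ := RR_cover (J := J) (x := x) hw hm hp a b 1 (by simp [bas]; linarith)
            (by simp [bas, wid]; linarith)
          exact ⟨_, Finset.mem_univ _, hc⟩
        · push Not at h4
          obtain ⟨c, hc⟩ := RR_cover (J := J) (x := x) hw hm hp a b 2 (by simp [bas]; linarith)
            (by simp [bas, wid]; nlinarith)
          exact ⟨_, Finset.mem_univ _, hc⟩

end

/-- triples in a common ruler -/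
noncomputable def Tr (p J w m : ℕ) (A : Finset ℤ) (q : ℕ × ℕ) : Finset (Fin 3 ↪ A) :=
  open Classical in
  Finset.univ.filter fun e => ∃ i : Idx w m, ∀ t, (e t).1 ∈ RR p q.1 q.2 J w m i

theorem Tr_dis {p J w m : ℕ} (A : Finset ℤ) (hpr : p.Prime) (hJ : J < p)
    (hw : 2 * p ≤ w / 2 + 1) (hm : 2 * p ≤ m / 2 + 1) {q q' : ℕ × ℕ} (h1 : q.1 < p)
    (h2 : q.2 < p) (h1' : q'.1 < p) (h2' : q'.2 < p) (hne : q ≠ q') :
    Disjoint (Tr p J w m A q) (Tr p J w m A q') := by
  classical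
  rw [Finset.disjoint_left]
  intro e he he'
  unfold Tr at he he'
  rw [Finset.mem_filter] at he he'
  obtain ⟨-, ⟨β, c⟩, hi⟩ := he
  obtain ⟨-, ⟨γ, c'⟩, hi'⟩ := he'
  have r1 := RR_range hw hm hpr.pos _ (hi 0)
  have r2 := RR_range hw hm hpr.pos _ (hi' 0)
  have hβ : β = γ := block_dis r1.1 r1.2 r2.1 r2.2
  subst hβ
  have ne : ∀ s t : Fin 3, s ≠ t → (e s).1 ≠ (e t).1 := fun s t hst h =>
    hst (e.injective (Subtype.ext h))
  have := three_common hpr hJ (wid_ok hw hm β) c.2 c'.2 h1 h1' h2 h2'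
    (ne 0 1 (by decide)) (ne 0 2 (by decide)) (ne 1 2 (by decide))
    (hi 0) (hi 1) (hi 2) (hi' 0) (hi' 1) (hi' 2)
  exact hne (Prod.ext this.1 this.2)

/-- good parameters exist -/
theorem exists_param {p J w m : ℕ} (A : Finset ℤ) (hA : A.card = J) (hJ0 : 0 < J)
    (hpr : p.Prime) (hJ : J < p) (hw : 2 * p ≤ w / 2 + 1) (hm : 2 * p ≤ m / 2 + 1) :
    ∃ a b : ℕ, 0 < a ∧ a < p ∧ b < p ∧ ∀ i : Idx w m,
      ((RR p a b J w m i ∩ A).card).descFactorial 3 < J := by
  classical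
  obtain ⟨Q, hQ⟩ : ∃ Q : Finset (ℕ × ℕ), Q = Finset.Icc 1 (p - 1) ×ˢ Finset.range p := ⟨_, rfl⟩
  have mQ : ∀ q : ℕ × ℕ, q ∈ Q → 0 < q.1 ∧ q.1 < p ∧ q.2 < p := by
    intro q hq
    rw [hQ, Finset.mem_product, Finset.mem_Icc, Finset.mem_range] at hq
    have := hpr.pos
    exact ⟨by omega, by omega, hq.2⟩
  have hQc : Q.card = (p - 1) * p := by
    rw [hQ, Finset.card_product, Nat.card_Icc, Finset.card_range]
    congr 1
  obtain ⟨q, hq, hlt⟩ : ∃ q ∈ Q, (Tr p J w m A q).card < J := by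
    by_contra hcon
    push Not at hcon
    have h1 : Q.card * J ≤ (Q.biUnion (Tr p J w m A)).card := by
      rw [Finset.card_biUnion]
      · rw [← smul_eq_mul, ← Finset.sum_const]
        exact Finset.sum_le_sum hcon
      · intro q hq q' hq' hne
        obtain ⟨-, a1, a2⟩ := mQ q hq
        obtain ⟨-, b1, b2⟩ := mQ q' hq'
        exact Tr_dis A hpr hJ hw hm a1 a2 b1 b2 hne
    have h2 : (Q.biUnion (Tr p J w m A)).card ≤ J ^ 3 := by
      refine (Finset.card_le_univ _).trans ?_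
      rw [Fintype.card_embedding_eq, Fintype.card_coe, hA, Fintype.card_fin]
      exact Nat.descFactorial_le_pow J 3
    rw [hQc] at h1
    have h3 : J * (J + 1) ≤ (p - 1) * p := Nat.mul_le_mul (by omega) (by omega)
    have h4 : J * (J + 1) * J ≤ (p - 1) * p * J := Nat.mul_le_mul_right J h3
    have h5 : J * (J + 1) * J = J ^ 3 + J * J := by ring
    have h6 : 0 < J * J := Nat.mul_pos hJ0 hJ0
    omega
  obtain ⟨q1, q2, q3⟩ := mQ q hq
  refine ⟨q.1, q.2, q1, q2, q3, fun i => lt_of_le_of_lt ?_ hlt⟩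
  have h1 : ((RR p q.1 q.2 J w m i ∩ A).card).descFactorial 3 =
      Fintype.card (Fin 3 ↪ ↥(RR p q.1 q.2 J w m i ∩ A)) := by
    rw [Fintype.card_embedding_eq, Fintype.card_coe, Fintype.card_fin]
  rw [h1, ← Finset.card_univ]
  let inc : ↥(RR p q.1 q.2 J w m i ∩ A) ↪ ↥A :=
    ⟨fun x => ⟨x.1, (Finset.mem_inter.1 x.2).2⟩, fun x y h => by
      have h' := congrArg (fun z : ↥A => z.1) h
      exact Subtype.ext h'⟩
  refine Finset.card_le_card_of_injOn (fun e => e.trans inc) ?_ ?_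
  · intro e _
    rw [Finset.mem_coe]
    unfold Tr
    rw [Finset.mem_filter]
    exact ⟨Finset.mem_univ _, i, fun t => (Finset.mem_inter.1 (e t).2).1⟩
  · intro e _ e' _ h
    ext t
    have h2 := congrArg (fun f : Fin 3 ↪ ↥A => (f t).1) h
    exact h2

theorem bound_of_desc {t J : ℕ} (h : t.descFactorial 3 < J) :
    (t - 1) ^ 2 * t + 1 ≤ 2 * J + 3 := by
  rcases t with _ | _ | _ | n
  · omega
  · omega
  · simp only [Nat.zero_add]
    omega
  · have h1 : (n + 3).descFactorial 3 = (n + 3) * (n + 2) * (n + 1) := by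
      simp only [Nat.descFactorial]
      have e0 : n + 3 - 0 = n + 3 := rfl
      have e1 : n + 3 - 1 = n + 2 := rfl
      have e2 : n + 3 - 2 = n + 1 := rfl
      rw [e0, e1, e2]
      ring
    have h2 : n + 1 + 1 + 1 = n + 3 := rfl
    rw [h2] at h ⊢
    rw [h1] at h
    have h3 : n + 3 - 1 = n + 2 := rfl
    rw [h3]
    have h4 : (n + 2) ^ 2 * (n + 3) ≤ 2 * ((n + 3) * (n + 2) * (n + 1)) := by nlinarith
    omega

/-- the structured rulers form a system in the sense of the exchange theorem -/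
theorem the_sys {p a b J w m : ℕ} (hJ0 : 0 < J) (hpr : p.Prime) (hJ : J < p) (hp2 : p ≤ 2 * J)
    (ha : 0 < a) (hap : a < p) (hm : 8 * J + 8 ≤ m) (hmw : m ≤ w) (hwm : w ≤ m + 2) :
    Sys J (RR p a b J w m) (fun i => i.1 = 0) (Finset.Icc (1 : ℤ) J)
      (Finset.Ico ((J : ℤ) + 1) (J + 1 + (4 * J + 3)))
      (Finset.Ico ((J : ℤ) + 1 + w * J + m * J) (J + 1 + w * J + m * J + (4 * J + 3)))
      (4 * J + 3) := by
  have hw2 : 2 * p ≤ w / 2 + 1 := by omega
  have hm2 : 2 * p ≤ m / 2 + 1 := by omega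
  have hp := hpr.pos
  have wJ : (w : ℤ) ≤ w * J := by
    have : (w : ℤ) * 1 ≤ w * J := mul_le_mul_of_nonneg_left (by omega) (by positivity)
    linarith
  have mJ : (m : ℤ) ≤ m * J := by
    have : (m : ℤ) * 1 ≤ m * J := mul_le_mul_of_nonneg_left (by omega) (by positivity)
    linarith
  have mwJ : (m : ℤ) * J ≤ w * J :=
    mul_le_mul_of_nonneg_right (by exact_mod_cast hmw) (by positivity)
  have wmJ : (w : ℤ) * J ≤ m * J + 2 * J := by
    have : (w : ℤ) * J ≤ (m + 2) * J :=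
      mul_le_mul_of_nonneg_right (by exact_mod_cast hwm) (by positivity)
    linarith
  have wide : ∀ β : Fin 3, 8 * J + 8 ≤ wid w m β := by
    intro β
    rcases wid_cases (w := w) (m := m) β with h | h <;> rw [h] <;> omega
  have base : ∀ β : Fin 3, (J : ℤ) + 1 ≤ bas J w m β := by
    intro β
    fin_cases β <;> simp [bas] <;> linarith
  have base' : ∀ β : Fin 3, β ≠ 0 → (J : ℤ) + 1 + w * J ≤ bas J w m β := by
    intro β
    fin_cases β <;> simp [bas] <;> linarith
  have widm : ∀ β : Fin 3, β ≠ 0 → wid w m β = m := fun β h => by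
    unfold wid
    exact if_neg h
  refine ⟨by positivity, fun i => card_rul (wid_ok hw2 hm2 i.1) hp i.2.2, ?_,
    fun i => gol_rul hpr hJ ha hap (wid_ok hw2 hm2 i.1) i.2.2,
    fun i j hij => RR_dis hw2 hm2 hp i j hij, ?_, ?_, ?_, ?_, ?_, ?_, ?_, ?_, ?_, ?_⟩
  · rw [Int.card_Icc]
    omega
  · intro i
    rw [Finset.disjoint_left]
    intro x hx hx'
    have h1 := (RR_range hw2 hm2 hp i hx).1
    have h2 := base i.1
    rw [Finset.mem_Icc] at hx'
    linarith [hx'.2]
  · intro i x hx y hy hne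
    have h1 := gap_rul (wid_ok hw2 hm2 i.1) hp i.2.2 x hx y hy hne
    have h2 : (8 * (J : ℤ) + 8) ≤ wid w m i.1 := by exact_mod_cast wide i.1
    omega
  · intro x hx
    rw [Finset.mem_Ico] at hx
    obtain ⟨c, hc⟩ := RR_cover (J := J) (x := x) hw2 hm2 hp a b 0 (by simp [bas]; linarith [hx.1])
      (by simp [bas, wid]; linarith [hx.2])
    exact ⟨_, rfl, hc⟩
  · intro x hx
    rw [Finset.mem_Ico] at hx
    obtain ⟨c, hc⟩ := RR_cover (J := J) (x := x) hw2 hm2 hp a b 2 (by simp [bas]; linarith [hx.1])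
      (by simp [bas, wid]; linarith [hx.2])
    refine ⟨_, ?_, hc⟩
    simp
  · intro x hx y hy
    rw [Finset.mem_Ico] at hx hy
    rw [abs_lt]
    constructor <;> linarith [hx.1, hx.2, hy.1, hy.2]
  · intro x hx y hy
    rw [Finset.mem_Ico] at hx hy
    rw [abs_lt]
    constructor <;> linarith [hx.1, hx.2, hy.1, hy.2]
  · rw [Int.card_Ico]
    omega
  · rw [Int.card_Ico]
    omega
  · intro i hi x hx y hy z hz e he
    have h1 := diam_rul (wid_ok hw2 hm2 i.1) hp i.2.2 x hx y hy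
    have h2 := (RR_range hw2 hm2 hp i hz).1
    have h3 := base' i.1 hi
    have h5 : e ≤ 5 * J + 3 := by
      rw [Finset.mem_union, Finset.mem_Ico, Finset.mem_Icc] at he
      rcases he with he | he
      · linarith [he.2]
      · linarith [he.2]
    rw [widm i.1 hi] at h1
    have h6 : ((J : ℤ) - 1) * m = m * J - m := by ring
    rw [h6] at h1
    have h7 : (8 * (J : ℤ) + 8) ≤ m := by exact_mod_cast hm
    constructor
    · omega
    · omega
  · intro i hi x hx y hy z hz e he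
    have h1 := diam_rul (wid_ok hw2 hm2 i.1) hp i.2.2 x hx y hy
    have h2 := (RR_range hw2 hm2 hp i hz).2
    have hb : bas J w m i.1 = J + 1 := by rw [hi]; simp [bas]
    have hww : wid w m i.1 = w := by rw [hi]; simp [wid]
    rw [hb, hww] at h2
    rw [hww] at h1
    rw [Finset.mem_Ico] at he
    have h6 : ((J : ℤ) - 1) * w = w * J - w := by ring
    rw [h6] at h1
    have h7 : (8 * (J : ℤ) + 8) ≤ m := by exact_mod_cast hm
    have h8 : (m : ℤ) ≤ w := by exact_mod_cast hmw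
    have h9 := he.1
    constructor
    · omega
    · omega

/-- Main theorem: the complement of an arbitrary `J`-element subset of `{1, …, (I+1) J}` is a
disjoint union of `I` Golomb rulers with `J` marks, if `I ≥ 24 (J + 1)`. -/
theorem main (I J : ℕ) (hJ0 : 0 < J) (hI : 24 * (J + 1) ≤ I) (A : Finset ℤ) (hA : A.card = J)
    (hs : A ⊆ Finset.Icc (1 : ℤ) ((I + 1) * J)) :
    ∃ F : Fin I → Finset ℤ, (∀ i, (F i).card = J ∧ Golomb (F i) ∧
      F i ⊆ Finset.Icc (1 : ℤ) ((I + 1) * J) \ A) ∧ ∀ i j, i ≠ j → Disjoint (F i) (F j) := by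
  obtain ⟨p, hpr, hJ, hp2⟩ := Nat.exists_prime_lt_and_le_two_mul J (by omega)
  obtain ⟨m, hm⟩ : ∃ m, m = I / 3 := ⟨_, rfl⟩
  obtain ⟨w, hw⟩ : ∃ w, w = I - 2 * m := ⟨_, rfl⟩
  have hm8 : 8 * J + 8 ≤ m := by omega
  have hmw : m ≤ w := by omega
  have hwm : w ≤ m + 2 := by omega
  have hIw : w + 2 * m = I := by omega
  have hw2 : 2 * p ≤ w / 2 + 1 := by omega
  have hm2 : 2 * p ≤ m / 2 + 1 := by omega
  obtain ⟨a, b, ha, hap, hb, hab⟩ := exists_param (w := w) (m := m) A hA hJ0 hpr hJ hw2 hm2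
  have hcov := all_cover (J := J) hw2 hm2 hpr.pos a b
  have hn : ((w : ℤ) + 2 * m + 1) * J = (I + 1) * J := by
    rw [← hIw]
    push_cast
    ring
  rw [hn] at hcov
  obtain ⟨R', h1, h2⟩ := exchange (the_sys (b := b) hJ0 hpr hJ hp2 ha hap hm8 hmw hwm) A hA
    (by rw [hcov]; exact hs) (fun i => bound_of_desc (hab i))
  rw [hcov] at h1
  have hcard : Fintype.card (Idx w m) = I := by
    rw [Fintype.card_sigma, Fin.sum_univ_three]
    simp only [Fintype.card_fin]
    simp [wid]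
    omega
  refine ⟨fun k => R' ((Fintype.equivFinOfCardEq hcard).symm k), fun k => h1 _,
    fun i j hij => h2 _ _ fun h => hij ?_⟩
  exact (Fintype.equivFinOfCardEq hcard).symm.injective h

end Pool.Agent.GRX
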